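import Pool.Agent.Lib.helper15.SimpRef

set_option autoImplicit false

open Pool.Agent.Lib.helper15.SimpRef

namespace Pool.Agent.Results.MP_ff4a33_gt.Counter

theorem result (a : ℕ) (ha : 4 ≤ a) : ∃ (C : Set (Fin a → ℝ)) (T : Set (Fin a ⊕ Fin a → ℝ)),
    IsPolytope C ∧ (∀ n, ¬IsSimplex C n) ∧ (C.extremePoints ℝ).ncard = a * (a - 1) ∧
      IsSimplex T (2 * a) ∧ 2 * a < a * (a - 1) ∧ ∃ D f D' g, Refines T C D f D' g := by
  have : Nontrivial (Fin a) := Fin.nontrivial_iff_two_le.2 (by omega)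
  refine ⟨C _, _, poly, not_simplex (by omega), by simp [card_extreme, Nat.mul_sub],
    two_mul a ▸ simplex_std finSumFinEquiv.symm, ?_, _, _, refines⟩
  rw [mul_comm]
  exact Nat.mul_lt_mul_of_pos_left (by omega) (by omega)

end Pool.Agent.Results.MP_ff4a33_gt.Counter
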